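import Mathlib

namespace Pool.Agent.H.MP_bf7c2b_nt

open Polynomial IntermediateField

lemma irr4 : Irreducible (X ^ 4 + X + 1 : (ZMod 2)[X]) := by
  have hm : (X ^ 4 + X + 1 : (ZMod 2)[X]).Monic := by monicity!
  have hd : (X ^ 4 + X + 1 : (ZMod 2)[X]).natDegree = 4 := by compute_degree!
  rw [hm.irreducible_iff_lt_natDegree_lt (fun h => by rw [h] at hd; simp at hd), hd]
  rintro q hq hdeg ⟨r, hr⟩
  have e0 := congrArg (eval 0) hr
  have e1 := congrArg (eval 1) hr
  have u : ∀ x y : ZMod 2, 1 = x * y → x = 1 := by decide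
  simp only [eval_add, eval_pow, eval_X, eval_one, eval_mul] at e0 e1
  have a0 := u _ _ (by rw [← e0]; decide)
  have a1 := u _ _ (by rw [← e1]; decide)
  have hs := hq.as_sum
  obtain ⟨h1, h2⟩ := Finset.mem_Ioc.1 hdeg
  rcases (show q.natDegree = 1 ∨ q.natDegree = 2 by omega) with h | h
  · rw [h] at hs
    rw [hs] at a0 a1
    simp at a0 a1
    exact absurd (a0.symm.trans a1) (by decide)
  · rw [h] at hs
    rw [hs] at a0 a1
    simp [Finset.sum_range_succ] at a0 a1
    have b : q.coeff 1 = 1 := by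
      revert a1; rw [a0]; generalize q.coeff 1 = c; revert c; decide
    simp only [Finset.sum_range_succ, Finset.sum_range_zero, a0, b, map_one, pow_zero, pow_one,
      one_mul, zero_add] at hs
    have two : (2 : (ZMod 2)[X]) = 0 := by exact_mod_cast CharP.cast_eq_zero (ZMod 2)[X] 2
    have : q * (r - (X ^ 2 + X)) = 1 := by
      rw [mul_sub, ← hr, hs]; linear_combination (-X ^ 3 - X ^ 2) * two
    have := natDegree_eq_zero_of_isUnit (IsUnit.of_mul_eq_one _ this)
    omega

lemma irrK (k : ℕ) : Irreducible (X ^ (4 * 3 ^ k) + X ^ 3 ^ k + 1 : (ZMod 2)[X]) := by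
  have hm : (X ^ 4 + X + 1 : (ZMod 2)[X]).Monic := by monicity!
  have hd : (X ^ 4 + X + 1 : (ZMod 2)[X]).natDegree = 4 := by compute_degree!
  have := irreducible_comp hm (monic_X_pow (3 ^ k)) irr4 (by
    intro E _ _ x hx
    rw [Polynomial.map_pow, map_X]
    refine X_pow_sub_C_irreducible_of_prime_pow Nat.prime_three (by norm_num) k fun b hb => ?_
    have hi : IsIntegral (ZMod 2) x := by
      by_contra h; rw [minpoly.eq_zero h] at hx; exact hm.ne_zero hx.symm
    have := adjoin.finiteDimensional hi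
    have : Finite (ZMod 2)⟮x⟯ := Module.finite_of_finite (ZMod 2)
    have := Fintype.ofFinite (ZMod 2)⟮x⟯
    have hc : Fintype.card (ZMod 2)⟮x⟯ = 16 := by
      rw [Module.card_eq_pow_finrank (K := ZMod 2), adjoin.finrank hi, hx, hd, ZMod.card]; rfl
    have h1 := FiniteField.pow_card b
    have h2 := aeval_gen_minpoly (ZMod 2) x
    rw [hx, ← hb] at h2
    rw [hc] at h1
    simp only [map_add, map_pow, aeval_X, map_one] at h2
    have two : (2 : (ZMod 2)⟮x⟯) = 0 := by
      have := map_natCast (algebraMap (ZMod 2) (ZMod 2)⟮x⟯) 2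
      rw [show ((2 : ℕ) : ZMod 2) = 0 from rfl, map_zero] at this
      exact_mod_cast this.symm
    have b0 : b ≠ 0 := by rintro rfl; simp at h2
    have h3 : (b ^ 3) ^ 5 = 1 := mul_left_cancel₀ b0 (by linear_combination h1)
    generalize b ^ 3 = g at *
    have h4 : g ^ 2 + g + 1 = 0 := by linear_combination g * h2 - h3
    exact one_ne_zero (α := (ZMod 2)⟮x⟯) (by linear_combination h2 - (g ^ 2 - g) * h4 - g * two))
  simpa [← pow_mul, mul_comm] using this

noncomputable def P (a : ℕ) : ℤ[X] := X ^ (4 * a) + (X ^ a * (2 * X ^ 2 - 1) + (2 * X ^ 2 - 1) ^ 2)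

lemma P_deg (a : ℕ) (ha : 2 ≤ a) :
    (X ^ a * (2 * X ^ 2 - 1) + (2 * X ^ 2 - 1) ^ 2 : ℤ[X]).degree < (4 * a : ℕ) := by
  refine lt_of_le_of_lt degree_le_natDegree ?_
  have : (X ^ a * (2 * X ^ 2 - 1) + (2 * X ^ 2 - 1) ^ 2 : ℤ[X]).natDegree ≤ a + 4 := by
    compute_degree; omega
  exact_mod_cast lt_of_le_of_lt this (by omega)

lemma P_monic (a : ℕ) (ha : 2 ≤ a) : (P a).Monic := monic_X_pow_add (P_deg a ha)

lemma P_natDegree (a : ℕ) (ha : 2 ≤ a) : (P a).natDegree = 4 * a := by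
  rw [P, natDegree_add_eq_left_of_degree_lt (by rw [degree_X_pow]; exact P_deg a ha),
    natDegree_X_pow]

lemma P_irr (k : ℕ) (hk : 2 ≤ 3 ^ k) : Irreducible ((P (3 ^ k)).map (algebraMap ℤ ℚ)) := by
  rw [← (P_monic _ hk).irreducible_iff_irreducible_map_fraction_map]
  refine Monic.irreducible_of_irreducible_map (Int.castRingHom (ZMod 2)) _ (P_monic _ hk) ?_
  convert irrK k using 1
  have two : (2 : (ZMod 2)[X]) = 0 := by exact_mod_cast CharP.cast_eq_zero (ZMod 2)[X] 2
  simp only [P, Polynomial.map_add, Polynomial.map_pow, map_X, Polynomial.map_mul,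
    Polynomial.map_sub, Polynomial.map_one, Polynomial.map_ofNat]
  linear_combination (X ^ 3 ^ k * X ^ 2 - X ^ 3 ^ k + 2 * X ^ 4 - 2 * X ^ 2) * two

end Pool.Agent.H.MP_bf7c2b_nt
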