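import Mathlib
import Pool.Agent.H.MP_bf7c2b_nt.A

namespace Pool.Agent.H.MP_bf7c2b_nt

open Finset

def Rt (a : ℕ) (z : ℂ) : Prop := (z ^ a) ^ 4 + z ^ a * (2 * z ^ 2 - 1) + (2 * z ^ 2 - 1) ^ 2 = 0

lemma pow_lip (x y : ℂ) (ρ : ℝ) (hx : ‖x‖ ≤ ρ) (hy : ‖y‖ ≤ ρ) (n : ℕ) :
    ρ * ‖x ^ n - y ^ n‖ ≤ n * ρ ^ n * ‖x - y‖ := by
  have h0 : 0 ≤ ρ := (norm_nonneg _).trans hx
  induction n with
  | zero => simp
  | succ n ih =>
    have e : x ^ (n + 1) - y ^ (n + 1) = x * (x ^ n - y ^ n) + y ^ n * (x - y) := by ring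
    have a1 : ‖x ^ (n + 1) - y ^ (n + 1)‖ ≤ ρ * ‖x ^ n - y ^ n‖ + ρ ^ n * ‖x - y‖ := by
      rw [e]
      refine (norm_add_le _ _).trans ?_
      rw [norm_mul, norm_mul, norm_pow]
      gcongr
    calc _ ≤ ρ * (n * ρ ^ n * ‖x - y‖ + ρ ^ n * ‖x - y‖) := by
          refine mul_le_mul_of_nonneg_left (a1.trans ?_) h0; gcongr
      _ = _ := by push_cast; ring

lemma small (a : ℕ) (z : ℂ) (h : Rt a z) (hw : ‖z ^ a‖ ≤ 1 / 2) :
    ‖z‖ ≤ 9 / 10 ∧ ‖2 * z ^ 2 - 1‖ ≤ 2 * ‖z ^ a‖ := by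
  have e : (2 * z ^ 2 - 1) ^ 2 = -((z ^ a) ^ 4 + z ^ a * (2 * z ^ 2 - 1)) := by
    unfold Rt at h; linear_combination h
  have a1 : ‖2 * z ^ 2 - 1‖ ^ 2 ≤ ‖z ^ a‖ ^ 4 + ‖z ^ a‖ * ‖2 * z ^ 2 - 1‖ := by
    rw [← norm_pow, e, norm_neg, ← norm_pow, ← norm_mul]; exact norm_add_le _ _
  have a2 : 2 * ‖z‖ ^ 2 ≤ ‖2 * z ^ 2 - 1‖ + 1 := by
    have := norm_add_le (2 * z ^ 2 - 1) 1
    rwa [sub_add_cancel, norm_mul, norm_pow, norm_one, Complex.norm_ofNat] at this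
  have u0 := norm_nonneg (2 * z ^ 2 - 1)
  have w0 := norm_nonneg (z ^ a)
  have z0 := norm_nonneg z
  generalize ‖2 * z ^ 2 - 1‖ = u at *
  generalize ‖z ^ a‖ = w at *
  have w2 : w ^ 2 ≤ 1 / 4 := by nlinarith
  have w4 : w ^ 4 ≤ w ^ 2 / 4 := by nlinarith [sq_nonneg w]
  have u1 : u ≤ 61 / 100 := by nlinarith
  refine ⟨by nlinarith, ?_⟩
  by_contra hc
  push Not at hc
  nlinarith

lemma big (a : ℕ) (ha : 2 ≤ a) (z : ℂ) (h : Rt a z) : ‖z‖ ^ a ≤ 12 := by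
  rcases le_or_gt ‖z‖ 1 with h1 | h1
  · exact (pow_le_one₀ (norm_nonneg _) h1).trans (by norm_num)
  have e : (z ^ a) ^ 4 = -(z ^ a * (2 * z ^ 2 - 1) + (2 * z ^ 2 - 1) ^ 2) := by
    unfold Rt at h; linear_combination h
  have a1 : (‖z‖ ^ a) ^ 4 ≤ ‖z‖ ^ a * ‖2 * z ^ 2 - 1‖ + ‖2 * z ^ 2 - 1‖ ^ 2 := by
    rw [← norm_pow, ← norm_pow, e, norm_neg, ← norm_pow, ← norm_mul]; exact norm_add_le _ _
  have a2 : ‖2 * z ^ 2 - 1‖ ≤ 2 * ‖z‖ ^ 2 + 1 := by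
    have := norm_sub_le (2 * z ^ 2) 1
    rwa [norm_mul, norm_pow, norm_one, Complex.norm_ofNat] at this
  have a3 : ‖z‖ ^ 2 ≤ ‖z‖ ^ a := pow_le_pow_right₀ h1.le ha
  have a4 : 1 ≤ ‖z‖ ^ a := one_le_pow₀ h1.le
  have u0 := norm_nonneg (2 * z ^ 2 - 1)
  generalize ‖2 * z ^ 2 - 1‖ = u at *
  generalize ‖z‖ ^ a = w at *
  have a5 : u ≤ 3 * w := by linarith
  have a6 : w ^ 4 ≤ 12 * w ^ 2 := by nlinarith
  by_contra hc
  push Not at hc
  have : 12 * w ^ 2 < w ^ 2 * w ^ 2 := mul_lt_mul_of_pos_right (by nlinarith) (by positivity)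
  nlinarith

lemma w_ne (a : ℕ) (z : ℂ) (ha : 1 ≤ a) (h : Rt a z) : z ≠ 0 := by
  rintro rfl
  unfold Rt at h
  rw [zero_pow (by omega)] at h; norm_num at h

lemma uniq (a : ℕ) (ha : 1 ≤ a) (hη : (a : ℝ) * (9 / 10) ^ a ≤ 1 / 20) (x y : ℂ) (hx : Rt a x)
    (hy : Rt a y) (sx : ‖x ^ a‖ ≤ 1 / 2) (sy : ‖y ^ a‖ ≤ 1 / 2) (h1 : 0 < x.re ↔ 0 < y.re)
    (h2 : -1 / 2 < ((2 * x ^ 2 - 1) / x ^ a).re ↔ -1 / 2 < ((2 * y ^ 2 - 1) / y ^ a).re) :
    x = y := by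
  have η1 : ((9 : ℝ) / 10) ^ a ≤ 1 / 20 := by
    have : (1 : ℝ) ≤ a := by exact_mod_cast ha
    have : (0 : ℝ) < (9 / 10) ^ a := by positivity
    nlinarith
  have key : ∀ z, Rt a z → ‖z ^ a‖ ≤ 1 / 2 → ‖z‖ ≤ 9 / 10 ∧ ‖z ^ a‖ ≤ 1 / 20 ∧ 1 / 4 ≤ z.re ^ 2 ∧
      ∀ v, v = (2 * z ^ 2 - 1) / z ^ a → 2 * z ^ 2 - 1 = z ^ a * v ∧
        v ^ 2 + v + (z ^ a) ^ 2 = 0 ∧ (-1 / 2 < v.re → ‖v‖ ≤ 1 / 8) ∧
        (¬ -1 / 2 < v.re → ‖v + 1‖ ≤ 1 / 8) := by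
    intro z hz sz
    obtain ⟨b1, b2⟩ := small a z hz sz
    have b3 : ‖z ^ a‖ ≤ 1 / 20 := by
      rw [norm_pow]; exact (pow_le_pow_left₀ (norm_nonneg _) b1 a).trans η1
    have w0 : z ^ a ≠ 0 := pow_ne_zero _ (w_ne a z ha hz)
    refine ⟨b1, b3, ?_, fun v hv => ?_⟩
    · have := (abs_le.1 (Complex.abs_re_le_norm (2 * z ^ 2 - 1))).1
      simp only [pow_two, Complex.sub_re, Complex.mul_re, Complex.re_ofNat, Complex.im_ofNat,
        Complex.one_re, Complex.mul_im] at this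
      simp only [← pow_two] at this
      nlinarith [sq_nonneg z.im]
    have e1 : 2 * z ^ 2 - 1 = z ^ a * v := by rw [hv]; field_simp
    have e2 : v ^ 2 + v + (z ^ a) ^ 2 = 0 := by
      unfold Rt at hz; rw [e1] at hz
      exact mul_left_cancel₀ (pow_ne_zero 2 w0) (by linear_combination hz)
    have e3 : ‖v‖ * ‖v + 1‖ ≤ 1 / 400 := by
      rw [← norm_mul, show v * (v + 1) = -(z ^ a) ^ 2 by linear_combination e2, norm_neg, norm_pow]
      nlinarith [norm_nonneg (z ^ a)]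
    refine ⟨e1, e2, fun h => ?_, fun h => ?_⟩
    · have := Complex.re_le_norm (v + 1)
      rw [Complex.add_re, Complex.one_re] at this
      nlinarith [norm_nonneg v]
    · have := (abs_le.1 (Complex.abs_re_le_norm v)).1
      nlinarith [norm_nonneg (v + 1), not_lt.1 h]
  obtain ⟨x1, x2, x3, x4⟩ := key x hx sx
  obtain ⟨y1, y2, y3, y4⟩ := key y hy sy
  obtain ⟨v, hv⟩ : ∃ v, v = (2 * x ^ 2 - 1) / x ^ a := ⟨_, rfl⟩
  obtain ⟨v', hv'⟩ : ∃ v, v = (2 * y ^ 2 - 1) / y ^ a := ⟨_, rfl⟩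
  rw [← hv, ← hv'] at h2
  obtain ⟨x5, x6, x7, x8⟩ := x4 v hv
  obtain ⟨y5, y6, y7, y8⟩ := y4 v' hv'
  have c1 : 1 / 2 ≤ ‖1 + v + v'‖ ∧ ‖v'‖ ≤ 2 := by
    by_cases h : -1 / 2 < v.re
    · have a1 := x7 h
      have a2 := y7 (h2.1 h)
      have a3 := norm_sub_le (1 + v + v') (v + v')
      have a4 := norm_add_le v v'
      rw [show 1 + v + v' - (v + v') = 1 by ring, norm_one] at a3
      exact ⟨by linarith, by linarith⟩
    · have a1 := x8 h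
      have a2 := y8 (fun h' => h (h2.2 h'))
      have a3 := norm_sub_le ((v + 1) + (v' + 1)) (1 + v + v')
      have a4 := norm_add_le (v + 1) (v' + 1)
      have a5 := norm_sub_le (v' + 1) 1
      rw [show (v + 1) + (v' + 1) - (1 + v + v') = 1 by ring, norm_one] at a3
      rw [add_sub_cancel_right, norm_one] at a5
      exact ⟨by linarith, by linarith⟩
  have c2 : ‖v - v'‖ ≤ ‖x ^ a - y ^ a‖ := by
    have a1 : ‖v - v'‖ * ‖1 + v + v'‖ = ‖x ^ a - y ^ a‖ * ‖x ^ a + y ^ a‖ := by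
      rw [← norm_mul, ← norm_mul, ← norm_neg]; congr 1; linear_combination y6 - x6
    have a2 := norm_add_le (x ^ a) (y ^ a)
    nlinarith [norm_nonneg (v - v'), norm_nonneg (x ^ a - y ^ a), c1.1]
  have c3 : 1 ≤ ‖x + y‖ := by
    have := abs_le.1 (Complex.abs_re_le_norm (x + y))
    rw [Complex.add_re] at this
    by_cases h : 0 < x.re
    · have h' := h1.1 h
      have : 1 / 2 ≤ x.re := by nlinarith
      have : 1 / 2 ≤ y.re := by nlinarith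
      linarith
    · have h' := not_lt.1 (mt h1.2 h)
      have h'' := not_lt.1 h
      have : x.re ≤ -1 / 2 := by nlinarith
      have : y.re ≤ -1 / 2 := by nlinarith
      linarith
  have c4 : 2 * (‖x - y‖ * ‖x + y‖) ≤ ‖x ^ a‖ * ‖v - v'‖ + ‖v'‖ * ‖x ^ a - y ^ a‖ := by
    rw [← norm_mul, ← norm_mul, ← norm_mul, ← Complex.norm_ofNat 2, ← norm_mul,
      show (OfNat.ofNat 2 : ℂ) * ((x - y) * (x + y)) = x ^ a * (v - v') + v' * (x ^ a - y ^ a) by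
        linear_combination x5 - y5]
    exact norm_add_le _ _
  have c5 := pow_lip x y (9 / 10) x1 y1 a
  have d0 := norm_nonneg (x - y)
  have d1 := norm_nonneg (x ^ a - y ^ a)
  have c6 := mul_le_mul_of_nonneg_right hη d0
  have c7 := mul_le_mul x2 c2 (norm_nonneg _) (by norm_num)
  have c8 := mul_le_mul_of_nonneg_right c1.2 d1
  have c9 := mul_le_mul_of_nonneg_left c3 d0
  exact sub_eq_zero.1 (norm_le_zero_iff.1 (by linarith))

lemma Rt_conj (a : ℕ) (z : ℂ) (h : Rt a z) : Rt a ((starRingEnd ℂ) z) := by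
  have := congrArg (starRingEnd ℂ) h
  simpa [Rt, map_ofNat] using this

lemma small_real (a : ℕ) (ha : 1 ≤ a) (hη : (a : ℝ) * (9 / 10) ^ a ≤ 1 / 20) (z : ℂ) (h : Rt a z)
    (s : ‖z ^ a‖ ≤ 1 / 2) : z.im = 0 := by
  rw [← Complex.conj_eq_iff_im]
  refine uniq a ha hη _ _ (Rt_conj a z h) h (by rwa [← map_pow, Complex.norm_conj]) s (by simp) ?_
  rw [← Complex.conj_re ((2 * z ^ 2 - 1) / z ^ a)]
  simp [map_ofNat]

lemma real_small (a : ℕ) (z : ℂ) (h : Rt a z) (hz : z.im = 0) : ‖z ^ a‖ ≤ 1 / 2 := by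
  obtain ⟨x, rfl⟩ : ∃ x : ℝ, z = x := ⟨z.re, Complex.ext rfl (by simp [hz])⟩
  have : (x ^ a) ^ 4 + x ^ a * (2 * x ^ 2 - 1) + (2 * x ^ 2 - 1) ^ 2 = 0 := by
    unfold Rt at h; exact_mod_cast h
  rw [← Complex.ofReal_pow, Complex.norm_real, Real.norm_eq_abs]
  generalize x ^ a = w at *
  generalize 2 * x ^ 2 - 1 = u at *
  by_contra hc
  have a1 : 1 / 4 < w ^ 2 := by
    rw [← sq_abs]; nlinarith [not_le.1 hc]
  nlinarith [sq_nonneg (u + w / 2)]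

lemma four_roots (a : ℕ) (ho : Odd a) (ha : 3 ≤ a) (hη : ((9 : ℝ) / 10) ^ a ≤ 1 / 20) :
    ∃ x1 x2 x3 x4 : ℝ, x1 < x2 ∧ x2 < x3 ∧ x3 < x4 ∧ Rt a x1 ∧ Rt a x2 ∧ Rt a x3 ∧ Rt a x4 := by
  obtain ⟨s, s0, s2⟩ : ∃ s : ℝ, 0 < s ∧ s ^ 2 = 1 / 2 :=
    ⟨√(1 / 2), by positivity, Real.sq_sqrt (by norm_num)⟩
  have s1 : s < 9 / 10 := by nlinarith
  obtain ⟨f, hf⟩ : ∃ f : ℝ → ℝ, f = fun x => (x ^ a) ^ 4 + x ^ a * (2 * x ^ 2 - 1) +
    (2 * x ^ 2 - 1) ^ 2 := ⟨_, rfl⟩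
  obtain ⟨g, hg⟩ : ∃ g : ℝ → ℝ, g = fun x => 2 * x ^ 2 - 1 + x ^ a / 2 := ⟨_, rfl⟩
  have cf : Continuous f := by rw [hf]; fun_prop
  have cg : Continuous g := by rw [hg]; fun_prop
  have rt : ∀ x, f x = 0 → Rt a x := fun x h => by
    rw [hf] at h; unfold Rt; exact_mod_cast h
  have neg : ∀ x, x ≠ 0 → |x| ≤ 9 / 10 → g x = 0 → f x < 0 := by
    intro x x0 x1 h
    have a1 : |x ^ a| ≤ 1 / 20 := by
      rw [abs_pow]; exact (pow_le_pow_left₀ (abs_nonneg _) x1 a).trans hη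
    have a2 : 0 < (x ^ a) ^ 2 := by positivity
    have a3 : (x ^ a) ^ 2 ≤ 1 / 400 := by rw [← sq_abs]; nlinarith [abs_nonneg (x ^ a)]
    simp only [hf, hg] at h ⊢
    rw [show 2 * x ^ 2 - 1 = -(x ^ a) / 2 by linarith]
    nlinarith
  have sa : 0 < s ^ a := by positivity
  have fs : 0 < f s := by simp only [hf, s2]; norm_num; positivity
  have fs' : 0 < f (-s) := by simp only [hf, neg_sq, s2, ho.neg_pow]; norm_num; positivity
  have f0 : 0 < f 0 := by simp [hf, zero_pow (show a ≠ 0 by omega)]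
  have f1 : 0 < f (-1) := by simp only [hf, ho.neg_pow]; norm_num
  obtain ⟨p, ⟨p1, p2⟩, p3⟩ : (0 : ℝ) ∈ g '' Set.Ioo 0 s :=
    intermediate_value_Ioo s0.le cg.continuousOn
      ⟨by simp [hg, zero_pow (show a ≠ 0 by omega)], by simp only [hg, s2]; linarith⟩
  obtain ⟨q, ⟨q1, q2⟩, q3⟩ : (0 : ℝ) ∈ g '' Set.Ioo (-(9 / 10)) (-s) :=
    intermediate_value_Ioo' (by linarith) cg.continuousOn
      ⟨by simp only [hg, neg_sq, s2, ho.neg_pow]; linarith,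
        by simp only [hg, neg_sq, ho.neg_pow]; linarith⟩
  have fp := neg p p1.ne' (abs_le.2 ⟨by linarith, by linarith⟩) p3
  have fq := neg q (by linarith) (abs_le.2 ⟨by linarith, by linarith⟩) q3
  obtain ⟨x1, ⟨a1, a2⟩, a3⟩ : (0 : ℝ) ∈ f '' Set.Ioo (-1) q :=
    intermediate_value_Ioo' (by linarith) cf.continuousOn ⟨fq, f1⟩
  obtain ⟨x2, ⟨b1, b2⟩, b3⟩ : (0 : ℝ) ∈ f '' Set.Ioo q (-s) :=
    intermediate_value_Ioo (by linarith) cf.continuousOn ⟨fq, fs'⟩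
  obtain ⟨x3, ⟨c1, c2⟩, c3⟩ : (0 : ℝ) ∈ f '' Set.Ioo 0 p :=
    intermediate_value_Ioo' (by linarith) cf.continuousOn ⟨fp, f0⟩
  obtain ⟨x4, ⟨d1, d2⟩, d3⟩ : (0 : ℝ) ∈ f '' Set.Ioo p s :=
    intermediate_value_Ioo (by linarith) cf.continuousOn ⟨fp, fs⟩
  exact ⟨x1, x2, x3, x4, by linarith, by linarith, by linarith, rt _ a3, rt _ b3, rt _ c3, rt _ d3⟩

theorem est (a : ℕ) (ho : Odd a) (ha : 6 ≤ a) (hη : (a : ℝ) * (9 / 10) ^ a ≤ 1 / 20)
    (R : Finset ℂ) (hR : ∀ z, z ∈ R ↔ Rt a z) (hc : R.card = 4 * a) (hp : ∏ z ∈ R, ‖z‖ = 1) :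
    (R.filter fun z => z.im = 0).card = 4 ∧
    ∑ z ∈ R.filter (fun z => z.im = 0), z.re ^ 2 + ∑ z ∈ R.filter (fun z => 0 < z.im), ‖z‖ ^ 2 ≤
      2 * a + 2 * Real.log 2 + 73 / a := by
  have a0 : (6 : ℝ) ≤ a := by exact_mod_cast ha
  obtain ⟨η, hη'⟩ : ∃ η : ℝ, η = (9 / 10) ^ a := ⟨_, rfl⟩
  have η0 : 0 < η := by rw [hη']; positivity
  rw [← hη'] at hη
  have η1 : η ≤ 1 / 20 := by nlinarith
  have c4 : (R.filter fun z => z.im = 0).card = 4 := by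
    apply le_antisymm
    · refine le_trans (card_le_card_of_injOn (t := (univ : Finset (Bool × Bool)))
        (fun z => (decide (0 < z.re), decide (-1 / 2 < ((2 * z ^ 2 - 1) / z ^ a).re)))
        (fun _ _ => mem_univ _) ?_) (by simp)
      intro x hx y hy h
      obtain ⟨x1, x2⟩ := mem_filter.1 hx
      obtain ⟨y1, y2⟩ := mem_filter.1 hy
      rw [hR] at x1 y1
      simp only [Prod.mk.injEq, decide_eq_decide] at h
      exact uniq a (by omega) (hη' ▸ hη) x y x1 y1 (real_small a x x1 x2) (real_small a y y1 y2)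
        h.1 h.2
    · obtain ⟨x1, x2, x3, x4, l1, l2, l3, r1, r2, r3, r4⟩ :=
        four_roots a ho (by omega) (hη' ▸ η1)
      have : (({x1, x2, x3, x4} : Finset ℝ).image ((↑) : ℝ → ℂ)).card = 4 := by
        rw [card_image_of_injective _ Complex.ofReal_injective,
          card_insert_of_notMem (by simp; refine ⟨?_, ?_, ?_⟩ <;> linarith),
          card_insert_of_notMem (by simp; refine ⟨?_, ?_⟩ <;> linarith),
          card_pair l3.ne]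
      rw [← this]
      refine card_le_card fun z hz => ?_
      obtain ⟨x, hx, rfl⟩ := mem_image.1 hz
      simp only [mem_insert, mem_singleton] at hx
      rcases hx with rfl | rfl | rfl | rfl <;> simp [*]
  refine ⟨c4, ?_⟩
  have cN : ((R.filter fun z => ¬ z.im = 0).card : ℝ) = 4 * a - 4 := by
    have := card_filter_add_card_filter_not (s := R) (fun z => z.im = 0)
    rw [c4, hc] at this
    have := congrArg (Nat.cast : ℕ → ℝ) this
    push_cast at this; linarith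
  have nz : ∀ z ∈ R, 0 < ‖z‖ := fun z hz => norm_pos_iff.2 (w_ne a z (by omega) ((hR z).1 hz))
  have lg : ∑ z ∈ R.filter (fun z => z.im = 0), Real.log (‖z‖ ^ 2) +
      ∑ z ∈ R.filter (fun z => ¬ z.im = 0), Real.log (‖z‖ ^ 2) = 0 := by
    rw [sum_filter_add_sum_filter_not, ← Real.log_prod (fun z hz => (pow_pos (nz z hz) 2).ne'),
      prod_pow, hp]; simp
  have r1 : ∀ z ∈ R.filter (fun z => z.im = 0), z.re ^ 2 ≤ 1 / 2 + η ∧
      -Real.log 2 - 4 * η ≤ Real.log (‖z‖ ^ 2) := by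
    intro z hz
    obtain ⟨z1, z2⟩ := mem_filter.1 hz
    rw [hR] at z1
    obtain ⟨b1, b2⟩ := small a z z1 (real_small a z z1 z2)
    have b3 : ‖z ^ a‖ ≤ η := by
      rw [norm_pow, hη']; exact pow_le_pow_left₀ (norm_nonneg _) b1 a
    have b4 := abs_le.1 (Complex.abs_re_le_norm (2 * z ^ 2 - 1))
    have b5 : (2 * z ^ 2 - 1).re = 2 * z.re ^ 2 - 1 := by simp [pow_two, z2]
    have b6 : ‖z‖ ^ 2 = z.re ^ 2 := by rw [Complex.sq_norm, Complex.normSq_apply, z2]; ring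
    rw [b5] at b4
    refine ⟨by linarith, ?_⟩
    have b7 : 0 < 2 * z.re ^ 2 := by linarith
    have b8 := Real.one_sub_inv_le_log_of_pos b7
    rw [Real.log_mul (by norm_num) (by linarith)] at b8
    have b9 : (2 * z.re ^ 2)⁻¹ ≤ 1 + 4 * η := by
      rw [inv_le_iff_one_le_mul₀ b7]; nlinarith
    rw [b6]; linarith
  have r2 : ∀ z ∈ R.filter (fun z => ¬ z.im = 0),
      ‖z‖ ^ 2 ≤ Real.log (‖z‖ ^ 2) + (1 + 36 / a ^ 2) := by
    intro z hz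
    obtain ⟨z1, z2⟩ := mem_filter.1 hz
    have z0 := nz z z1
    rw [hR] at z1
    have b1 := big a (by omega) z z1
    have b2 : 1 / 2 < ‖z‖ ^ a := by
      rw [← norm_pow]; exact not_le.1 fun h => z2 (small_real a (by omega) (hη' ▸ hη) z z1 h)
    have l2 := Real.log_two_lt_d9
    have l0 := Real.log_pos (show (1 : ℝ) < 2 by norm_num)
    have b3 := Real.log_le_log (by positivity) (b1.trans (show (12 : ℝ) ≤ 2 ^ 4 by norm_num))
    have b4 := Real.log_le_log (by positivity) b2.le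
    rw [Real.log_pow] at b3 b4
    rw [Real.log_pow] at b3
    rw [one_div, Real.log_inv] at b4
    obtain ⟨l, hl⟩ : ∃ l, l = Real.log (‖z‖ ^ 2) := ⟨_, rfl⟩
    have b5 : |l| ≤ 6 / a := by
      rw [hl, Real.log_pow, le_div_iff₀ (by linarith), ← abs_of_nonneg (show (0 : ℝ) ≤ a by linarith),
        ← abs_mul, abs_le]
      push_cast at *
      constructor <;> nlinarith
    have b6 : (6 : ℝ) / a ≤ 1 := (div_le_one (by linarith)).2 a0
    have b7 := (abs_le.1 (Real.abs_exp_sub_one_sub_id_le (b5.trans b6))).2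
    have b8 : l ^ 2 ≤ 36 / a ^ 2 := by
      rw [← sq_abs, show (36 : ℝ) / a ^ 2 = (6 / a) ^ 2 by ring]
      exact pow_le_pow_left₀ (abs_nonneg _) b5 2
    rw [← hl, ← Real.exp_log (pow_pos z0 2), ← hl]
    linarith
  have s1 := sum_le_card_nsmul _ _ _ fun z hz => (r1 z hz).1
  have s2 := card_nsmul_le_sum _ _ _ fun z hz => (r1 z hz).2
  have s3 := sum_le_sum r2
  rw [sum_add_distrib, sum_const, nsmul_eq_mul, cN] at s3
  rw [c4, nsmul_eq_mul] at s1 s2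
  have s4 : ∑ z ∈ R.filter (fun z => ¬ z.im = 0), ‖z‖ ^ 2 =
      2 * ∑ z ∈ R.filter (fun z => 0 < z.im), ‖z‖ ^ 2 := by
    rw [← sum_filter_add_sum_filter_not _ (fun z => 0 < z.im), filter_filter, filter_filter, two_mul]
    congr 1
    · exact sum_congr (filter_congr fun z _ => ⟨fun h => h.2, fun h => ⟨h.ne', h⟩⟩) fun _ _ => rfl
    · refine sum_bij' (fun z _ => (starRingEnd ℂ) z) (fun z _ => (starRingEnd ℂ) z) ?_ ?_ ?_ ?_ ?_
      · intro z hz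
        obtain ⟨z1, z2, z3⟩ := mem_filter.1 hz
        refine mem_filter.2 ⟨(hR _).2 (Rt_conj a z ((hR z).1 z1)), ?_⟩
        rw [Complex.conj_im]
        exact neg_pos.2 (lt_of_le_of_ne (not_lt.1 z3) z2)
      · intro z hz
        obtain ⟨z1, z2⟩ := mem_filter.1 hz
        refine mem_filter.2 ⟨(hR _).2 (Rt_conj a z ((hR z).1 z1)), ?_⟩
        rw [Complex.conj_im]
        exact ⟨by linarith, by linarith⟩
      · simp
      · simp
      · simp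
  have s5 : (4 * a - 4 : ℝ) * (36 / a ^ 2) ≤ 144 / a := by
    have : (144 : ℝ) / a = 4 * a * (36 / a ^ 2) := by field_simp; norm_num
    rw [this]; gcongr; linarith
  have s6 : 12 * η ≤ 1 / a := by rw [le_div_iff₀ (by linarith)]; linarith
  have s7 : (73 : ℝ) / a = 144 / a / 2 + 1 / a := by ring
  push_cast at s1 s2
  linarith

end Pool.Agent.H.MP_bf7c2b_nt
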